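import Pool.Agent.H21.ASY.Stmts
import Pool.Agent.H93.BT.Divb

/-!
# ASY, row TRN: the truncated Moebius formula
-/

set_option autoImplicit false

namespace Pool.ASY

open Finset MeasureTheory Pool.Agent.H98.ABCR Pool.SHA
open scoped ArithmeticFunction.Moebius

theorem trn_thm (hMOB : S_MOB) (hEXC : S_EXC) (hSQP : S_SQP) : S_TRN := by
  classical
  intro ε hε
  obtain ⟨C1, hC1, hdiv⟩ := Pool.Agent.H93.BT.divisor_bound (ε / 6) (by positivity)
  obtain ⟨C2, hC2, hsq⟩ := hSQP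
  have hC12 : 1 ≤ C1 ^ 2 := one_le_pow₀ hC1
  refine ⟨C1 ^ 2 * C2, by nlinarith, ?_⟩
  intro X Z Y hX hZ hY
  have hZ0 : 0 < Z := by linarith
  -- the indicator
  obtain ⟨g, hg⟩ : ∃ g : ℕ × ℕ → ℕ → ℝ, g = fun (v : ℕ × ℕ) (e : ℕ) =>
      if ((nn v : ℕ) : ℝ) ≤ X * (e : ℝ) then 1 else 0 := ⟨_, rfl⟩
  obtain ⟨hh, hhh⟩ : ∃ hh : ℕ × ℕ → ℕ → ℝ, hh = fun v d =>
      ∑ j ∈ d.divisors, (μ (d / j) : ℝ) * g v (exc j) := ⟨_, rfl⟩
  have hbox : ∀ v ∈ box Z, 0 < nn v ∧ ((nn v : ℕ) : ℝ) ≤ Z ^ 3 := by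
    intro v hv
    simp only [box, mem_filter, mem_product, mem_Icc] at hv
    obtain ⟨⟨⟨h1, h2⟩, h3, h4⟩, h5, h6⟩ := hv
    have h7 : 0 < v.1 := h1
    have h8 : 0 < v.2 := h3
    refine ⟨by unfold nn; positivity, ?_⟩
    have h9 : (v.1 : ℝ) ≤ Z := by
      push_cast at h6
      have : (0 : ℝ) ≤ v.2 := Nat.cast_nonneg _
      linarith
    have h10 : (v.2 : ℝ) ≤ Z := by
      push_cast at h6
      have : (0 : ℝ) ≤ v.1 := Nat.cast_nonneg _
      linarith
    unfold nn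
    push_cast at h6 ⊢
    calc (v.1 : ℝ) * v.2 * (v.1 + v.2) ≤ Z * Z * Z := by
          apply mul_le_mul _ h6 (by positivity) (by positivity)
          exact mul_le_mul h9 h10 (by positivity) hZ0.le
      _ = Z ^ 3 := by ring
  -- the first term
  have h1 : (((box Z).filter (fun v => ((rad (nn v) : ℕ) : ℝ) ≤ X)).card : ℝ) =
      ∑ v ∈ box Z, ∑ d ∈ (nn v).divisors.filter Sqf, hh v d := by
    rw [Finset.card_filter, Nat.cast_sum]
    apply Finset.sum_congr rfl
    intro v hv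
    have e1 := hMOB (g v) (nn v) (hbox v hv).1
    rw [hhh]
    rw [← e1, hg]
    have e2 := hEXC.2.1 (nn v) X (hbox v hv).1
    by_cases hc : ((rad (nn v) : ℕ) : ℝ) ≤ X
    · rw [if_pos hc, Nat.cast_one]
      exact (if_pos (e2.1 hc)).symm
    · rw [if_neg hc, Nat.cast_zero]
      exact (if_neg (fun h => hc (e2.2 h))).symm
  -- the second term
  have h2 : ∑ d ∈ sf Y, ∑ j ∈ d.divisors, (μ (d / j) : ℝ) * MM (X * exc j) Z d =
      ∑ v ∈ box Z, ∑ d ∈ (sf Y).filter (fun d => d ∣ nn v), hh v d := by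
    have e1 : ∀ d j : ℕ, (μ (d / j) : ℝ) * MM (X * exc j) Z d =
        ∑ v ∈ box Z, if d ∣ nn v then (μ (d / j) : ℝ) * g v (exc j) else 0 := by
      intro d j
      unfold MM
      rw [Finset.card_filter, Nat.cast_sum, Finset.mul_sum]
      apply Finset.sum_congr rfl
      intro v _
      rw [hg]
      by_cases hd : d ∣ nn v
      · by_cases hn : ((nn v : ℕ) : ℝ) ≤ X * (exc j : ℝ)
        · simp [hd, hn]
        · simp [hd, hn]
      · simp [hd]
    simp only [e1]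
    have e2 : ∀ d : ℕ, ∑ j ∈ d.divisors, ∑ v ∈ box Z,
        (if d ∣ nn v then (μ (d / j) : ℝ) * g v (exc j) else 0) =
        ∑ v ∈ box Z, if d ∣ nn v then hh v d else 0 := by
      intro d
      rw [Finset.sum_comm]
      apply Finset.sum_congr rfl
      intro v _
      by_cases hd : d ∣ nn v
      · simp only [hd, if_true]
        rw [hhh]
      · simp [hd]
    simp only [e2]
    rw [Finset.sum_comm]
    apply Finset.sum_congr rfl
    intro v _
    rw [Finset.sum_filter]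
  -- the difference
  have h3 : ∀ v ∈ box Z, ∑ d ∈ (nn v).divisors.filter Sqf, hh v d -
      ∑ d ∈ (sf Y).filter (fun d => d ∣ nn v), hh v d =
      ∑ d ∈ ((nn v).divisors.filter Sqf).filter (fun d => ¬ ((d : ℕ) : ℝ) ≤ Y), hh v d := by
    intro v hv
    have e1 : (sf Y).filter (fun d => d ∣ nn v) =
        ((nn v).divisors.filter Sqf).filter (fun d => ((d : ℕ) : ℝ) ≤ Y) := by
      ext d
      simp only [sf, mem_filter, mem_Icc, Nat.mem_divisors]
      constructor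
      · rintro ⟨⟨⟨h1, h2⟩, h3⟩, h4⟩
        exact ⟨⟨⟨h4, (hbox v hv).1.ne'⟩, h3⟩, (Nat.le_floor_iff (by linarith)).1 h2⟩
      · rintro ⟨⟨⟨h4, h5⟩, h3⟩, h2⟩
        exact ⟨⟨⟨h3.1, (Nat.le_floor_iff (by linarith)).2 h2⟩, h3⟩, h4⟩
    rw [e1, ← Finset.sum_filter_add_sum_filter_not ((nn v).divisors.filter Sqf)
      (fun d => ((d : ℕ) : ℝ) ≤ Y) (hh v)]
    ring
  have hh1 : ∀ v d, 0 < nn v → d ∣ nn v → |hh v d| ≤ ((nn v).divisors.card : ℝ) := by
    intro v d hv hd
    have hd0 : 0 < d := Nat.pos_of_dvd_of_pos hd hv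
    rw [hhh]
    calc |∑ j ∈ d.divisors, (μ (d / j) : ℝ) * g v (exc j)|
        ≤ ∑ j ∈ d.divisors, |(μ (d / j) : ℝ) * g v (exc j)| := Finset.abs_sum_le_sum_abs _ _
      _ ≤ ∑ _j ∈ d.divisors, (1 : ℝ) := by
          apply Finset.sum_le_sum
          intro j _
          rw [abs_mul]
          have e1 : |((μ (d / j) : ℤ) : ℝ)| ≤ 1 := by
            have := ArithmeticFunction.abs_moebius_le_one (n := d / j)
            exact_mod_cast this
          have e2 : |g v (exc j)| ≤ 1 := by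
            rw [hg]
            show |if ((nn v : ℕ) : ℝ) ≤ X * ((exc j : ℕ) : ℝ) then (1 : ℝ) else 0| ≤ 1
            split_ifs <;> simp
          calc |((μ (d / j) : ℤ) : ℝ)| * |g v (exc j)| ≤ 1 * 1 :=
                mul_le_mul e1 e2 (abs_nonneg _) zero_le_one
            _ = 1 := one_mul 1
      _ = (d.divisors.card : ℝ) := by simp
      _ ≤ ((nn v).divisors.card : ℝ) := by
          exact_mod_cast Finset.card_le_card (Nat.divisors_subset_of_dvd hv.ne' hd)
  have hh2 : ∀ v ∈ box Z, |∑ d ∈ ((nn v).divisors.filter Sqf).filter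
      (fun d => ¬ ((d : ℕ) : ℝ) ≤ Y), hh v d| ≤
      if (∃ d, Sqf d ∧ d ∣ nn v ∧ Y < ((d : ℕ) : ℝ)) then C1 ^ 2 * Z ^ ε else 0 := by
    intro v hv
    obtain ⟨hv0, hv1⟩ := hbox v hv
    by_cases hc : ∃ d, Sqf d ∧ d ∣ nn v ∧ Y < ((d : ℕ) : ℝ)
    · rw [if_pos hc]
      calc |∑ d ∈ ((nn v).divisors.filter Sqf).filter (fun d => ¬ ((d : ℕ) : ℝ) ≤ Y), hh v d|
          ≤ ∑ d ∈ ((nn v).divisors.filter Sqf).filter (fun d => ¬ ((d : ℕ) : ℝ) ≤ Y),
            |hh v d| := Finset.abs_sum_le_sum_abs _ _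
        _ ≤ ∑ _d ∈ ((nn v).divisors.filter Sqf).filter (fun d => ¬ ((d : ℕ) : ℝ) ≤ Y),
            ((nn v).divisors.card : ℝ) := by
            apply Finset.sum_le_sum
            intro d hd
            exact hh1 v d hv0 (Nat.dvd_of_mem_divisors
              (Finset.mem_of_mem_filter d (Finset.mem_of_mem_filter d hd)))
        _ = ((((nn v).divisors.filter Sqf).filter
            (fun d => ¬ ((d : ℕ) : ℝ) ≤ Y)).card : ℝ) * ((nn v).divisors.card : ℝ) := by
            rw [Finset.sum_const, nsmul_eq_mul]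
        _ ≤ ((nn v).divisors.card : ℝ) * ((nn v).divisors.card : ℝ) := by
            apply mul_le_mul_of_nonneg_right _ (by positivity)
            exact_mod_cast Finset.card_le_card ((Finset.filter_subset _ _).trans
              (Finset.filter_subset _ _))
        _ = ((nn v).divisors.card : ℝ) ^ 2 := by ring
        _ ≤ (C1 * ((Z ^ 3) ^ (ε / 6))) ^ 2 := by
            apply pow_le_pow_left₀ (by positivity)
            refine (hdiv (nn v) hv0.ne').trans ?_
            apply mul_le_mul_of_nonneg_left _ (by linarith)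
            exact Real.rpow_le_rpow (by positivity) hv1 (by positivity)
        _ = C1 ^ 2 * Z ^ ε := by
            rw [mul_pow]
            congr 1
            rw [← Real.rpow_natCast Z 3, ← Real.rpow_mul hZ0.le, ← Real.rpow_natCast _ 2,
              ← Real.rpow_mul hZ0.le]
            congr 1
            push_cast
            ring
    · rw [if_neg hc]
      have e1 : ((nn v).divisors.filter Sqf).filter (fun d => ¬ ((d : ℕ) : ℝ) ≤ Y) = ∅ := by
        rw [Finset.filter_eq_empty_iff]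
        intro d hd hY'
        apply hc
        rw [mem_filter, Nat.mem_divisors] at hd
        exact ⟨d, hd.2, hd.1.1, not_le.1 hY'⟩
      rw [e1, Finset.sum_empty, abs_zero]
  rw [h1, h2, ← Finset.sum_sub_distrib, Finset.sum_congr rfl h3]
  calc |∑ v ∈ box Z, ∑ d ∈ ((nn v).divisors.filter Sqf).filter
        (fun d => ¬ ((d : ℕ) : ℝ) ≤ Y), hh v d|
      ≤ ∑ v ∈ box Z, |∑ d ∈ ((nn v).divisors.filter Sqf).filter
        (fun d => ¬ ((d : ℕ) : ℝ) ≤ Y), hh v d| := Finset.abs_sum_le_sum_abs _ _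
    _ ≤ ∑ v ∈ box Z, if (∃ d, Sqf d ∧ d ∣ nn v ∧ Y < ((d : ℕ) : ℝ)) then
        C1 ^ 2 * Z ^ ε else 0 := Finset.sum_le_sum hh2
    _ = (((box Z).filter fun v => ∃ d, Sqf d ∧ d ∣ nn v ∧ Y < ((d : ℕ) : ℝ)).card : ℝ) *
        (C1 ^ 2 * Z ^ ε) := by
        rw [← Finset.sum_filter, Finset.sum_const, nsmul_eq_mul]
    _ ≤ (C2 * Z ^ 2 * Y ^ (-(1 / 72) : ℝ)) * (C1 ^ 2 * Z ^ ε) := by
        apply mul_le_mul_of_nonneg_right _ (by positivity)
        exact hsq Z Y hZ hY _ (Finset.filter_subset _ _) fun v hv => (mem_filter.1 hv).2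
    _ = C1 ^ 2 * C2 * Z ^ (2 + ε) * Y ^ (-(1 / 72) : ℝ) := by
        rw [Real.rpow_add hZ0, Real.rpow_two]
        ring

end Pool.ASY
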